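import Mathlib

set_option autoImplicit false

namespace Pool.Agent.Results.MP_efe8c5_co.Cex

open Classical ComplexOrder

def Pot {V : Type} (G : SimpleGraph V) (s : V → V → ℂ) : Prop :=
  ∀ x y, G.Adj x y → ‖s x y‖ = 1 ∧ s y x = (s x y)⁻¹

noncomputable def lam {V : Type} [Fintype V] (G : SimpleGraph V) (s : V → V → ℂ) : ℝ :=
  sInf {t : ℝ | ∃ f : V → ℂ, f ≠ 0 ∧
    ∀ x, ∑ y ∈ G.neighborFinset x, (f x - s x y * f y) = t * f x}

noncomputable def nu {V : Type} [Fintype V] (G : SimpleGraph V) : ℝ :=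
  sSup {t | ∃ s, Pot G s ∧ lam G s = t}

def susp {V : Type} (G : SimpleGraph V) : SimpleGraph (Option V) :=
  SimpleGraph.fromRel fun a b => a = none ∨ ∃ x y, a = some x ∧ b = some y ∧ G.Adj x y

variable {V : Type} [Fintype V] (G : SimpleGraph V) (s : V → V → ℂ)

lemma bdd (hs : Pot G s) : BddBelow {t : ℝ | ∃ f : V → ℂ, f ≠ 0 ∧
    ∀ x, ∑ y ∈ G.neighborFinset x, (f x - s x y * f y) = t * f x} := by
  refine ⟨0, ?_⟩
  rintro t ⟨f, hf, h⟩
  obtain ⟨z, hz⟩ := Function.ne_iff.1 hf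
  obtain ⟨x, -, hx⟩ := Finset.exists_max_image Finset.univ (fun x => ‖f x‖) ⟨z, by simp⟩
  have h0 : 0 < ‖f x‖ := (norm_pos_iff.2 hz).trans_le (hx z (by simp))
  have h1 : ((G.degree x - t : ℝ) : ℂ) * f x = ∑ y ∈ G.neighborFinset x, s x y * f y := by
    have := h x
    rw [Finset.sum_sub_distrib, Finset.sum_const, SimpleGraph.card_neighborFinset_eq_degree] at this
    push_cast
    rw [nsmul_eq_mul] at this
    linear_combination this
  have h2 : ‖∑ y ∈ G.neighborFinset x, s x y * f y‖ ≤ G.degree x * ‖f x‖ := by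
    refine (norm_sum_le _ _).trans ((Finset.sum_le_card_nsmul _ _ ‖f x‖ fun y hy => ?_).trans ?_)
    · rw [norm_mul, (hs x y (by simpa using hy)).1, one_mul]
      exact hx y (by simp)
    · simp
  rw [← h1, norm_mul, Complex.norm_real] at h2
  have h3 := le_of_mul_le_mul_right h2 h0
  have := le_abs_self (G.degree x - t : ℝ)
  rw [Real.norm_eq_abs] at h3
  linarith

lemma eig (hs : Pot G s) (b : ℝ) (g : V → ℂ) (hg : g ≠ 0)
    (h : (∑ x, star (g x) * (∑ y ∈ G.neighborFinset x, (g x - s x y * g y) - b * g x)).re ≤ 0) :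
    ∃ t ≤ b, ∃ f : V → ℂ, f ≠ 0 ∧
      ∀ x, ∑ y ∈ G.neighborFinset x, (f x - s x y * f y) = t * f x := by
  let N : Matrix V V ℂ := fun x y =>
    (if x = y then ((G.degree x - b : ℝ) : ℂ) else 0) - if G.Adj x y then s x y else 0
  have hN : ∀ f x, N.mulVec f x = ∑ y ∈ G.neighborFinset x, (f x - s x y * f y) - b * f x := by
    intro f x
    simp only [N, Matrix.mulVec, dotProduct, sub_mul, Finset.sum_sub_distrib, ite_mul, zero_mul,
      Finset.sum_ite_eq, Finset.mem_univ, if_true, Finset.sum_const,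
      SimpleGraph.card_neighborFinset_eq_degree, nsmul_eq_mul]
    rw [SimpleGraph.neighborFinset_eq_filter, Finset.sum_filter]
    push_cast
    ring
  have hH : N.IsHermitian := by
    ext x y
    simp only [N, Matrix.conjTranspose_apply, star_sub, G.adj_comm y x]
    congr 1
    · split_ifs with h1 h2 h2
      · subst h1; simp
      · exact absurd h1.symm h2
      · exact absurd h2.symm h1
      · simp
    · split_ifs with h1
      · rw [(hs x y h1).2, Complex.inv_eq_conj (hs x y h1).1]; simp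
      · simp
  by_contra hn
  have hP : N.PosDef := by
    rw [hH.posDef_iff_eigenvalues_pos]
    intro i
    by_contra hi
    refine hn ⟨hH.eigenvalues i + b, by linarith, ⇑(hH.eigenvectorBasis i), fun h0 =>
      (hH.eigenvectorBasis.orthonormal.ne_zero i) (by ext x; exact congrFun h0 x), fun x => ?_⟩
    have := congrFun (hH.mulVec_eigenvectorBasis i) x
    rw [hN] at this
    simp only [Pi.smul_apply, Complex.real_smul] at this
    push_cast
    linear_combination this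
  have h3 := (Complex.lt_def.1 (hP.dotProduct_mulVec_pos hg)).1
  simp only [dotProduct, hN, Pi.star_apply, Complex.zero_re] at h3
  linarith

def G0 : SimpleGraph (Fin 5) := SimpleGraph.fromRel fun a b => a.val < 4 ∧ (b.val < 4 ∨ a.val = 0)

lemma nb : G0.neighborFinset 0 = {1, 2, 3, 4} ∧ G0.neighborFinset 1 = {0, 2, 3} ∧
    G0.neighborFinset 2 = {0, 1, 3} ∧ G0.neighborFinset 3 = {0, 1, 2} ∧
    G0.neighborFinset 4 = {0} := by
  refine ⟨?_, ?_, ?_, ?_, ?_⟩ <;> ext y <;> fin_cases y <;> simp [G0]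

lemma deg : (susp G0).neighborFinset none = {some 0, some 1, some 2, some 3, some 4} ∧
    (susp G0).neighborFinset (some 0) = {none, some 1, some 2, some 3, some 4} ∧
    (susp G0).neighborFinset (some 4) = {none, some 0} := by
  refine ⟨?_, ?_, ?_⟩ <;> ext y <;> rcases y with _ | y <;> (try fin_cases y) <;> simp [G0, susp]

lemma up (s : Option (Fin 5) → Option (Fin 5) → ℂ) (hs : Pot (susp G0) s) :
    lam (susp G0) s ≤ 39 / 25 := by
  have a1 := hs (some 4) none (by simp [susp])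
  have a2 := hs (some 4) (some 0) (by simp [susp, G0])
  have a3 := hs none (some 0) (by simp [susp])
  obtain ⟨u, eu⟩ : ∃ u, s (some 4) none = u := ⟨_, rfl⟩
  obtain ⟨v, ev⟩ : ∃ v, s (some 4) (some 0) = v := ⟨_, rfl⟩
  obtain ⟨w, ew⟩ : ∃ w, s none (some 0) = w := ⟨_, rfl⟩
  rw [eu] at a1
  rw [ev] at a2
  rw [ew] at a3
  have hu : u ≠ 0 := fun h => by simp [h] at a1
  have hv : v ≠ 0 := fun h => by simp [h] at a2
  obtain ⟨t, ht, hf⟩ := eig (susp G0) s hs (39 / 25)
    (fun x => if x = some 4 then 4 else if x = none then u⁻¹ else if x = some 0 then v⁻¹ else 0)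
    (fun h => by simpa using congrFun h (some 4)) (by
      have cu : star u⁻¹ = u := by rw [Complex.inv_eq_conj a1.1]; simp
      have cv : star v⁻¹ = v := by rw [Complex.inv_eq_conj a2.1]; simp
      have r1 : -(u * w * v⁻¹).re ≤ 1 := by
        have := Complex.abs_re_le_norm (u * w * v⁻¹)
        rw [norm_mul, norm_mul, norm_inv, a1.1, a2.1, a3.1] at this
        linarith [neg_abs_le (u * w * v⁻¹).re]
      have r2 : -(v * w⁻¹ * u⁻¹).re ≤ 1 := by
        have := Complex.abs_re_le_norm (v * w⁻¹ * u⁻¹)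
        rw [norm_mul, norm_mul, norm_inv, norm_inv, a1.1, a2.1, a3.1] at this
        linarith [neg_abs_le (v * w⁻¹ * u⁻¹).re]
      have e : ∀ z : ℂ, z = -(77 / 25 : ℝ) + 1 - u * w * v⁻¹ - v * w⁻¹ * u⁻¹ → z.re ≤ 0 := by
        rintro z rfl
        simp only [Complex.sub_re, Complex.add_re, Complex.neg_re, Complex.ofReal_re,
          Complex.one_re]
        linarith
      apply e
      simp only [Fintype.sum_option, Fin.sum_univ_five, deg.1, deg.2.1, deg.2.2]
      simp [Finset.sum_insert, cu, cv, a1.2, a2.2, a3.2, eu, ev, ew, -star_inv₀]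
      field_simp
      ring)
  exact (csInf_le (bdd _ s hs) hf).trans ht

noncomputable def s0 (a b : Fin 5) : ℂ := if a = 4 ∨ b = 4 then 1 else -1

lemma pot0 : Pot G0 s0 := by
  intro x y _
  unfold s0
  by_cases h1 : x = 4 <;> by_cases h2 : y = 4 <;> simp [h1, h2]

lemma quad (a b c d e t : ℝ) (h0 : 4 * a + b + c + d - e = t * a) (h1 : 3 * b + a + c + d = t * b)
    (h2 : 3 * c + a + b + d = t * c) (h3 : 3 * d + a + b + c = t * d) (h4 : e - a = t * e)
    (ht : t < 3 / 5) : a = 0 ∧ b = 0 ∧ c = 0 ∧ d = 0 ∧ e = 0 := by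
  have q : (e - a) ^ 2 + 2 * (a ^ 2 + b ^ 2 + c ^ 2 + d ^ 2) + (a + b + c + d) ^ 2 =
      t * (a ^ 2 + b ^ 2 + c ^ 2 + d ^ 2 + e ^ 2) := by
    linear_combination a * h0 + b * h1 + c * h2 + d * h3 + e * h4
  have q2 : 3 / 5 * (a ^ 2 + b ^ 2 + c ^ 2 + d ^ 2 + e ^ 2) ≤
      (e - a) ^ 2 + 2 * (a ^ 2 + b ^ 2 + c ^ 2 + d ^ 2) + (a + b + c + d) ^ 2 := by
    nlinarith [sq_nonneg (2 * e - 5 * a), sq_nonneg (b - c), sq_nonneg (b - d), sq_nonneg (c - d),
      sq_nonneg (3 * a + 4 * (b + c + d)), sq_nonneg a, sq_nonneg (b + c + d)]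
  have q3 : a ^ 2 + b ^ 2 + c ^ 2 + d ^ 2 + e ^ 2 ≤ 0 := by
    by_contra hn
    nlinarith [mul_pos (sub_pos.2 ht) (not_le.1 hn)]
  refine ⟨?_, ?_, ?_, ?_, ?_⟩ <;> nlinarith [sq_nonneg a, sq_nonneg b, sq_nonneg c, sq_nonneg d,
    sq_nonneg e]

lemma ex (s : Fin 5 → Fin 5 → ℂ) (hs : Pot G0 s) : ∃ t ≤ (1 : ℝ), ∃ f : Fin 5 → ℂ, f ≠ 0 ∧
    ∀ x, ∑ y ∈ G0.neighborFinset x, (f x - s x y * f y) = t * f x :=
  eig G0 s hs 1 (fun x => if x = 4 then 1 else 0) (fun h => by simpa using congrFun h 4) (by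
    simp only [Fin.sum_univ_five, nb.2.2.2.2]
    simp)

lemma low : 3 / 5 ≤ lam G0 s0 := by
  obtain ⟨t, -, ht⟩ := ex s0 pot0
  refine le_csInf ⟨t, ht⟩ ?_
  rintro t ⟨f, hf, h⟩
  by_contra hn
  have h0 := h 0
  have h1 := h 1
  have h2 := h 2
  have h3 := h 3
  have h4 := h 4
  simp [nb.1, nb.2.1, nb.2.2.1, nb.2.2.2.1, nb.2.2.2.2, Finset.sum_insert, s0,
    Complex.ext_iff] at h0 h1 h2 h3 h4
  have r := quad (f 0).re (f 1).re (f 2).re (f 3).re (f 4).re t (by linarith [h0.1])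
    (by linarith [h1.1]) (by linarith [h2.1]) (by linarith [h3.1]) (by linarith [h4.1]) (not_le.1 hn)
  have i := quad (f 0).im (f 1).im (f 2).im (f 3).im (f 4).im t (by linarith [h0.2])
    (by linarith [h1.2]) (by linarith [h2.2]) (by linarith [h3.2]) (by linarith [h4.2]) (not_le.1 hn)
  apply hf
  funext x
  fin_cases x <;> simp [Complex.ext_iff, r, i]

theorem result : ∃ (n : ℕ) (G : SimpleGraph (Fin n)), 0 < n ∧ (∀ x, ∃ y, G.Adj x y) ∧
    nu (susp G) < nu G + 1 := by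
  refine ⟨5, G0, by norm_num, fun x => ?_, ?_⟩
  · by_cases h : x = 0
    · exact ⟨1, by simp [h, G0]⟩
    · exact ⟨0, by simp [h, G0]⟩
  have h1 : nu (susp G0) ≤ 39 / 25 := Real.sSup_le (by
    rintro t ⟨s, hs, rfl⟩
    exact up s hs) (by norm_num)
  have h2 : 3 / 5 ≤ nu G0 := low.trans (le_csSup ⟨1, by
    rintro t ⟨s, hs, rfl⟩
    obtain ⟨t, ht, hf⟩ := ex s hs
    exact (csInf_le (bdd _ s hs) hf).trans ht⟩ ⟨s0, pot0, rfl⟩)
  linarith

end Pool.Agent.Results.MP_efe8c5_co.Cex
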